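import Mathlib
set_option autoImplicit false
open Filter Topology

/-!
A rotund and smooth norm on `J →₀ ℝ` which is as close as we like to the `ℓ₁` norm on every
coordinate plane.
-/

namespace Pool.Agent.Lib.Helper35.Tiling

noncomputable section

/-- `rho u = (|u| - 1)₊²` -/
def rho (u : ℝ) : ℝ := (max (u - 1) 0) ^ 2 + (max (-u - 1) 0) ^ 2

/-- derivative of `rho` -/
def rho' (u : ℝ) : ℝ := 2 * max (u - 1) 0 - 2 * max (-u - 1) 0

theorem rho_nonneg (u : ℝ) : 0 ≤ rho u := by unfold rho; positivity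

theorem rho_neg (u : ℝ) : rho (-u) = rho u := by
  unfold rho; rw [neg_neg, add_comm]

theorem rho_eq_zero (u : ℝ) (h : |u| ≤ 1) : rho u = 0 := by
  rw [abs_le] at h
  unfold rho
  rw [max_eq_right (by linarith), max_eq_right (by linarith)]
  norm_num

theorem hasDerivAt_sq_max (u : ℝ) : HasDerivAt (fun v : ℝ => (max v 0) ^ 2) (2 * max u 0) u := by
  rcases lt_trichotomy u 0 with h | h | h
  · have h1 : (fun v : ℝ => (max v 0) ^ 2) =ᶠ[𝓝 u] fun _ => 0 := by
      filter_upwards [gt_mem_nhds h] with v hv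
      rw [max_eq_right hv.le]; norm_num
    rw [max_eq_right h.le, mul_zero]
    exact (hasDerivAt_const u (0:ℝ)).congr_of_eventuallyEq h1
  · subst h
    rw [max_self, mul_zero, hasDerivAt_iff_isLittleO_nhds_zero]
    have h1 : (fun h : ℝ => (max (0 + h) 0) ^ 2 - (max (0:ℝ) 0) ^ 2 - h • (0:ℝ)) =O[𝓝 0]
        (fun h : ℝ => h ^ 2) := by
      apply Asymptotics.isBigO_of_le
      intro h
      rw [zero_add, max_self, smul_zero, sub_zero]
      norm_num
      rcases le_total h 0 with h2 | h2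
      · rw [max_eq_right h2]; simp; positivity
      · rw [max_eq_left h2]
    refine h1.trans_isLittleO ?_
    have := Asymptotics.isLittleO_pow_id (𝕜 := ℝ) (n := 2) (by norm_num)
    exact this
  · have h1 : (fun v : ℝ => (max v 0) ^ 2) =ᶠ[𝓝 u] fun v => v ^ 2 := by
      filter_upwards [lt_mem_nhds h] with v hv
      rw [max_eq_left hv.le]
    rw [max_eq_left h.le]
    have h2 : HasDerivAt (fun v : ℝ => v ^ 2) (2 * u) u := by
      simpa using hasDerivAt_pow 2 u
    exact h2.congr_of_eventuallyEq h1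

theorem hasDerivAt_rho (u : ℝ) : HasDerivAt rho (rho' u) u := by
  unfold rho rho'
  have h1 : HasDerivAt (fun v : ℝ => (max (v - 1) 0) ^ 2) (2 * max (u - 1) 0) u := by
    have h := HasDerivAt.comp (h₂ := fun v : ℝ => (max v 0) ^ 2) (h := fun v : ℝ => v - 1) u
      (hasDerivAt_sq_max (u - 1)) ((hasDerivAt_id u).sub_const 1)
    rw [mul_one] at h
    exact h
  have h2 : HasDerivAt (fun v : ℝ => (max (-v - 1) 0) ^ 2) (-(2 * max (-u - 1) 0)) u := by
    have h := HasDerivAt.comp (h₂ := fun v : ℝ => (max v 0) ^ 2) (h := fun v : ℝ => -v - 1) u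
      (hasDerivAt_sq_max (-u - 1)) (((hasDerivAt_id u).neg).sub_const 1)
    rw [mul_neg, mul_one] at h
    exact h
  have := h1.add h2
  rw [← sub_eq_add_neg] at this
  exact this

theorem rho'_mul_nonneg (u : ℝ) : 0 ≤ rho' u * u := by
  unfold rho'
  rcases le_total u 0 with h | h
  · rw [max_eq_right (by linarith : u - 1 ≤ 0)]
    have : 0 ≤ max (-u - 1) 0 := le_max_right _ _
    nlinarith
  · rw [max_eq_right (by linarith : -u - 1 ≤ 0)]
    have : 0 ≤ max (u - 1) 0 := le_max_right _ _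
    nlinarith

theorem sq_max_convex (a b u v : ℝ) (ha : 0 ≤ a) (hb : 0 ≤ b) (hab : a + b = 1) :
    (max (a * u + b * v) 0) ^ 2 ≤ a * (max u 0) ^ 2 + b * (max v 0) ^ 2 := by
  have h1 : max (a * u + b * v) 0 ≤ a * max u 0 + b * max v 0 := by
    apply max_le
    · gcongr <;> exact le_max_left _ _
    · have := le_max_right u 0
      have := le_max_right v 0
      positivity
  have h2 : 0 ≤ max (a * u + b * v) 0 := le_max_right _ _
  have h3 : (a * max u 0 + b * max v 0) ^ 2 ≤ a * (max u 0) ^ 2 + b * (max v 0) ^ 2 := by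
    have hb' : b = 1 - a := by linarith
    subst hb'
    nlinarith [mul_nonneg ha hb, sq_nonneg (max u 0 - max v 0)]
  calc (max (a * u + b * v) 0) ^ 2 ≤ (a * max u 0 + b * max v 0) ^ 2 := by gcongr
    _ ≤ _ := h3

theorem rho_convex (a b u v : ℝ) (ha : 0 ≤ a) (hb : 0 ≤ b) (hab : a + b = 1) :
    rho (a * u + b * v) ≤ a * rho u + b * rho v := by
  unfold rho
  have h1 := sq_max_convex a b (u - 1) (v - 1) ha hb hab
  have h2 := sq_max_convex a b (-u - 1) (-v - 1) ha hb hab
  have e1 : a * (u - 1) + b * (v - 1) = a * u + b * v - 1 := by linarith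
  have e2 : a * (-u - 1) + b * (-v - 1) = -(a * u + b * v) - 1 := by linarith
  rw [e1] at h1
  rw [e2] at h2
  linarith

/-- if `rho u` is small then `u` is at most a little more than one -/
theorem rho_bound (u k : ℝ) (hk : 0 ≤ k) (h : rho u ≤ k ^ 2) : |u| ≤ 1 + k := by
  unfold rho at h
  have h1 : (max (u - 1) 0) ^ 2 ≤ k ^ 2 := by
    have : 0 ≤ (max (-u - 1) 0) ^ 2 := by positivity
    linarith
  have h2 : (max (-u - 1) 0) ^ 2 ≤ k ^ 2 := by
    have : 0 ≤ (max (u - 1) 0) ^ 2 := by positivity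
    linarith
  have h3 := (abs_le_of_sq_le_sq' h1 hk).2
  have h4 := (abs_le_of_sq_le_sq' h2 hk).2
  have h5 := le_max_left (u - 1) 0
  have h6 := le_max_left (-u - 1) 0
  rw [abs_le]
  constructor <;> linarith

variable {J : Type*}

/-- the modular restricted to a finite set of coordinates -/
def Phi (C : J → J → ℝ) (S : Finset J) (t : J →₀ ℝ) : ℝ :=
  ∑ x ∈ S, (t x) ^ 2 + ∑ x ∈ S, ∑ y ∈ S, C x y * (rho (t x + t y) + rho (t x - t y))

/-- admissible matrices -/
structure AdmC (C : J → J → ℝ) : Prop where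
  nonneg : ∀ x y, 0 ≤ C x y
  diag : ∀ x, C x x = 0

/-- the modular ball -/
def Bset (C : J → J → ℝ) : Set (J →₀ ℝ) := {t | ∀ S : Finset J, Phi C S t ≤ 1}

variable {C : J → J → ℝ}

theorem Phi_nonneg (hC : AdmC C) (S : Finset J) (t : J →₀ ℝ) : 0 ≤ Phi C S t := by
  unfold Phi
  apply add_nonneg (Finset.sum_nonneg fun x _ => sq_nonneg _)
  apply Finset.sum_nonneg fun x _ => Finset.sum_nonneg fun y _ => ?_
  exact mul_nonneg (hC.nonneg x y) (add_nonneg (rho_nonneg _) (rho_nonneg _))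

theorem Phi_zero (S : Finset J) : Phi C S 0 = 0 := by
  unfold Phi
  have : rho 0 = 0 := rho_eq_zero 0 (by norm_num)
  simp [this]

theorem Phi_neg (S : Finset J) (t : J →₀ ℝ) : Phi C S (-t) = Phi C S t := by
  unfold Phi
  congr 1
  · refine Finset.sum_congr rfl fun x _ => ?_
    simp
  · refine Finset.sum_congr rfl fun x _ => Finset.sum_congr rfl fun y _ => ?_
    simp only [Finsupp.coe_neg, Pi.neg_apply]
    rw [← rho_neg (-t x + -t y), ← rho_neg (-t x - -t y)]
    congr 2
    · congr 1; ring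
    · congr 1; ring

theorem Phi_mono (hC : AdmC C) {S T : Finset J} (hST : S ⊆ T) (t : J →₀ ℝ) :
    Phi C S t ≤ Phi C T t := by
  unfold Phi
  apply add_le_add
  · exact Finset.sum_le_sum_of_subset_of_nonneg hST fun x _ _ => sq_nonneg _
  · calc _ ≤ ∑ x ∈ S, ∑ y ∈ T, C x y * (rho (t x + t y) + rho (t x - t y)) := by
          apply Finset.sum_le_sum fun x _ => ?_
          apply Finset.sum_le_sum_of_subset_of_nonneg hST fun y _ _ => ?_
          exact mul_nonneg (hC.nonneg x y) (add_nonneg (rho_nonneg _) (rho_nonneg _))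
      _ ≤ _ := by
          apply Finset.sum_le_sum_of_subset_of_nonneg hST fun x _ _ => ?_
          apply Finset.sum_nonneg fun y _ => ?_
          exact mul_nonneg (hC.nonneg x y) (add_nonneg (rho_nonneg _) (rho_nonneg _))

/-- strong convexity inequality for the modular -/
theorem Phi_convex (hC : AdmC C) (S : Finset J) (t s : J →₀ ℝ) (a b : ℝ) (ha : 0 ≤ a)
    (hb : 0 ≤ b) (hab : a + b = 1) :
    Phi C S (a • t + b • s) + a * b * ∑ x ∈ S, (t x - s x) ^ 2
      ≤ a * Phi C S t + b * Phi C S s := by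
  unfold Phi
  have h1 : ∑ x ∈ S, ((a • t + b • s) x) ^ 2 + a * b * ∑ x ∈ S, (t x - s x) ^ 2
      = a * ∑ x ∈ S, (t x) ^ 2 + b * ∑ x ∈ S, (s x) ^ 2 := by
    rw [Finset.mul_sum, Finset.mul_sum, Finset.mul_sum, ← Finset.sum_add_distrib,
      ← Finset.sum_add_distrib]
    refine Finset.sum_congr rfl fun x _ => ?_
    simp only [Finsupp.coe_add, Finsupp.coe_smul, Pi.add_apply, Pi.smul_apply, smul_eq_mul]
    have hb' : b = 1 - a := by linarith
    subst hb'
    ring
  have h2 : ∑ x ∈ S, ∑ y ∈ S, C x y * (rho ((a • t + b • s) x + (a • t + b • s) y)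
        + rho ((a • t + b • s) x - (a • t + b • s) y))
      ≤ a * ∑ x ∈ S, ∑ y ∈ S, C x y * (rho (t x + t y) + rho (t x - t y))
        + b * ∑ x ∈ S, ∑ y ∈ S, C x y * (rho (s x + s y) + rho (s x - s y)) := by
    rw [Finset.mul_sum, Finset.mul_sum, ← Finset.sum_add_distrib]
    apply Finset.sum_le_sum fun x _ => ?_
    rw [Finset.mul_sum, Finset.mul_sum, ← Finset.sum_add_distrib]
    apply Finset.sum_le_sum fun y _ => ?_
    simp only [Finsupp.coe_add, Finsupp.coe_smul, Pi.add_apply, Pi.smul_apply, smul_eq_mul]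
    have e1 : a * t x + b * s x + (a * t y + b * s y) = a * (t x + t y) + b * (s x + s y) := by ring
    have e2 : a * t x + b * s x - (a * t y + b * s y) = a * (t x - t y) + b * (s x - s y) := by ring
    rw [e1, e2]
    have h3 := rho_convex a b (t x + t y) (s x + s y) ha hb hab
    have h4 := rho_convex a b (t x - t y) (s x - s y) ha hb hab
    have h5 := hC.nonneg x y
    calc C x y * (rho (a * (t x + t y) + b * (s x + s y)) + rho (a * (t x - t y) + b * (s x - s y)))
        ≤ C x y * ((a * rho (t x + t y) + b * rho (s x + s y))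
          + (a * rho (t x - t y) + b * rho (s x - s y))) := by gcongr
      _ = _ := by ring
  linarith

theorem Phi_convex' (hC : AdmC C) (S : Finset J) (t s : J →₀ ℝ) (a b : ℝ) (ha : 0 ≤ a)
    (hb : 0 ≤ b) (hab : a + b = 1) :
    Phi C S (a • t + b • s) ≤ a * Phi C S t + b * Phi C S s := by
  have h1 := Phi_convex hC S t s a b ha hb hab
  have h2 : 0 ≤ a * b * ∑ x ∈ S, (t x - s x) ^ 2 :=
    mul_nonneg (mul_nonneg ha hb) (Finset.sum_nonneg fun x _ => sq_nonneg _)
  linarith

/-- the modular on a finite set containing the support decides membership in the ball -/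
theorem mem_Bset_iff (hC : AdmC C) (S : Finset J) (t : J →₀ ℝ) (hS : t.support ⊆ S) :
    t ∈ Bset C ↔ Phi C S t ≤ 1 := by
  classical
  constructor
  · intro h; exact h S
  · intro h T
    -- coordinates are at most one in absolute value
    have habs : ∀ x, |t x| ≤ 1 := by
      intro x
      by_cases hx : x ∈ S
      · have h1 : (t x) ^ 2 ≤ 1 := by
          have h2 : (t x) ^ 2 ≤ ∑ x ∈ S, (t x) ^ 2 :=
            Finset.single_le_sum (f := fun x => (t x) ^ 2) (fun _ _ => sq_nonneg _) hx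
          have h3 : 0 ≤ ∑ x ∈ S, ∑ y ∈ S, C x y * (rho (t x + t y) + rho (t x - t y)) :=
            Finset.sum_nonneg fun x _ => Finset.sum_nonneg fun y _ =>
              mul_nonneg (hC.nonneg x y) (add_nonneg (rho_nonneg _) (rho_nonneg _))
          unfold Phi at h
          linarith
        exact abs_le_one_iff_mul_self_le_one.2 (by nlinarith)
      · have : t x = 0 := by
          by_contra hne
          exact hx (hS (Finsupp.mem_support_iff.2 hne))
        rw [this]; simp
    have hz : ∀ x, x ∉ S → t x = 0 := by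
      intro x hx
      by_contra hne
      exact hx (hS (Finsupp.mem_support_iff.2 hne))
    refine (Phi_mono hC (Finset.subset_union_left (s₁ := T) (s₂ := S)) t).trans ?_
    have heq : Phi C (T ∪ S) t = Phi C S t := by
      unfold Phi
      congr 1
      · symm
        apply Finset.sum_subset Finset.subset_union_right
        intro x _ hx
        rw [hz x hx]; norm_num
      · have e1 : ∀ x, ∀ y, y ∉ S → C x y * (rho (t x + t y) + rho (t x - t y)) = 0 := by
          intro x y hy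
          rw [hz y hy, add_zero, sub_zero, rho_eq_zero _ (habs x)]
          ring
        have e2 : ∀ x, x ∉ S → ∀ y, C x y * (rho (t x + t y) + rho (t x - t y)) = 0 := by
          intro x hx y
          rw [hz x hx, zero_add, zero_sub, rho_neg, rho_eq_zero _ (habs y)]
          ring
        symm
        calc ∑ x ∈ S, ∑ y ∈ S, C x y * (rho (t x + t y) + rho (t x - t y))
            = ∑ x ∈ S, ∑ y ∈ T ∪ S, C x y * (rho (t x + t y) + rho (t x - t y)) := by
              refine Finset.sum_congr rfl fun x _ => ?_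
              apply Finset.sum_subset Finset.subset_union_right
              intro y _ hy
              exact e1 x y hy
          _ = _ := by
              apply Finset.sum_subset Finset.subset_union_right
              intro x _ hx
              exact Finset.sum_eq_zero fun y _ => e2 x hx y
    rw [heq]; exact h

theorem convex_Bset (hC : AdmC C) : Convex ℝ (Bset C) := by
  intro t ht s hs a b ha hb hab S
  have h1 := Phi_convex' hC S t s a b ha hb hab
  have h2 := ht S
  have h3 := hs S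
  nlinarith

theorem zero_mem_Bset : (0 : J →₀ ℝ) ∈ Bset C := by
  intro S; rw [Phi_zero]; norm_num

theorem neg_mem_Bset (t : J →₀ ℝ) (ht : t ∈ Bset C) : -t ∈ Bset C := by
  intro S; rw [Phi_neg]; exact ht S

/-- a vector with small `ℓ₁` norm is in the ball -/
theorem small_mem_Bset (hC : AdmC C) (t : J →₀ ℝ) (h : ∑ x ∈ t.support, |t x| ≤ 1 / 2) :
    t ∈ Bset C := by
  rw [mem_Bset_iff hC t.support t (Finset.Subset.refl _)]
  have habs : ∀ x ∈ t.support, |t x| ≤ 1 / 2 := by
    intro x hx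
    exact (Finset.single_le_sum (f := fun x => |t x|) (fun _ _ => abs_nonneg _) hx).trans h
  unfold Phi
  have h1 : ∑ x ∈ t.support, ∑ y ∈ t.support, C x y * (rho (t x + t y) + rho (t x - t y)) = 0 := by
    apply Finset.sum_eq_zero fun x hx => Finset.sum_eq_zero fun y hy => ?_
    have hx1 := habs x hx
    have hy1 := habs y hy
    rw [rho_eq_zero _ ((abs_add_le _ _).trans (by linarith)),
      rho_eq_zero _ ((abs_sub _ _).trans (by linarith))]
    ring
  have h2 : ∑ x ∈ t.support, (t x) ^ 2 ≤ ∑ x ∈ t.support, |t x| := by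
    apply Finset.sum_le_sum fun x hx => ?_
    have hx1 := habs x hx
    rw [← sq_abs]
    have := abs_nonneg (t x)
    nlinarith
  linarith

theorem absorbent_Bset (hC : AdmC C) : Absorbent ℝ (Bset C) := by
  rw [absorbent_iff_inv_smul]
  intro t
  set M : ℝ := ∑ x ∈ t.support, |t x| with hM
  have hM0 : 0 ≤ M := Finset.sum_nonneg fun _ _ => abs_nonneg _
  have hev : ∀ᶠ c : ℝ in Bornology.cobounded ℝ, 2 * M + 1 ≤ ‖c‖ :=
    (tendsto_norm_cobounded_atTop (E := ℝ)).eventually_ge_atTop _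
  filter_upwards [hev] with c hc
  apply small_mem_Bset hC
  have hc0 : 0 < ‖c‖ := by linarith
  have hsub : (c⁻¹ • t).support ⊆ t.support := Finsupp.support_smul
  calc ∑ x ∈ (c⁻¹ • t).support, |(c⁻¹ • t) x| ≤ ∑ x ∈ t.support, |(c⁻¹ • t) x| :=
        Finset.sum_le_sum_of_subset_of_nonneg hsub fun _ _ _ => abs_nonneg _
    _ = ‖c‖⁻¹ * M := by
        rw [hM, Finset.mul_sum]
        refine Finset.sum_congr rfl fun x _ => ?_
        rw [Finsupp.smul_apply, smul_eq_mul, abs_mul, abs_inv, Real.norm_eq_abs]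
    _ ≤ 1 / 2 := by
        rw [inv_mul_le_iff₀ hc0]
        linarith

/-- the norm -/
def Q (C : J → J → ℝ) (t : J →₀ ℝ) : ℝ := gauge (Bset C) t

theorem Q_nonneg (t : J →₀ ℝ) : 0 ≤ Q C t := gauge_nonneg t

theorem Q_zero : Q C 0 = 0 := gauge_zero

theorem Q_neg (t : J →₀ ℝ) : Q C (-t) = Q C t := gauge_neg neg_mem_Bset t

theorem Q_add_le (hC : AdmC C) (t s : J →₀ ℝ) : Q C (t + s) ≤ Q C t + Q C s :=
  gauge_add_le (convex_Bset hC) (absorbent_Bset hC) t s

theorem Q_smul (a : ℝ) (t : J →₀ ℝ) : Q C (a • t) = |a| * Q C t := by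
  rcases le_total 0 a with h | h
  · rw [abs_of_nonneg h]
    exact gauge_smul_of_nonneg (s := Bset C) h t
  · have h1 : a • t = -((-a) • t) := by rw [neg_smul, neg_neg]
    rw [h1, Q_neg, abs_of_nonpos h]
    exact gauge_smul_of_nonneg (s := Bset C) (by linarith : (0:ℝ) ≤ -a) t

theorem Q_le_one (t : J →₀ ℝ) (h : t ∈ Bset C) : Q C t ≤ 1 := gauge_le_one_of_mem h

/-- points of gauge less than `a` are `a` times a point of the ball -/
theorem inv_smul_mem (hC : AdmC C) (t : J →₀ ℝ) (a : ℝ) (h : Q C t < a) : a⁻¹ • t ∈ Bset C := by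
  obtain ⟨b, hb0, hba, hb⟩ := exists_lt_of_gauge_lt (absorbent_Bset hC) h
  have ha0 : 0 < a := hb0.trans hba
  obtain ⟨u, hu, rfl⟩ := hb
  have h1 : a⁻¹ • b • u = (b / a) • u + (1 - b / a) • (0 : J →₀ ℝ) := by
    rw [smul_zero, add_zero, smul_smul]; congr 1; ring
  have h2 : b / a ≤ 1 := by rw [div_le_one ha0]; exact hba.le
  have h3 : 0 ≤ b / a := by positivity
  change a⁻¹ • b • u ∈ Bset C
  rw [h1]
  exact convex_Bset hC hu zero_mem_Bset h3 (by linarith) (by ring)

theorem Phi_smul_le (hC : AdmC C) (S : Finset J) (t : J →₀ ℝ) (a : ℝ) (ha : 0 ≤ a)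
    (ha1 : a ≤ 1) : Phi C S (a • t) ≤ a * Phi C S t := by
  have := Phi_convex' hC S t 0 a (1 - a) ha (by linarith) (by ring)
  rw [smul_zero, add_zero, Phi_zero, mul_zero, add_zero] at this
  exact this

/-- `Q t ≤ max 1 (Phi t)` -/
theorem Q_le_of_Phi_le (hC : AdmC C) (S : Finset J) (t : J →₀ ℝ) (hS : t.support ⊆ S) (a : ℝ)
    (ha : 1 ≤ a) (h : Phi C S t ≤ a) : Q C t ≤ a := by
  have ha0 : 0 < a := by linarith
  have h1 : a⁻¹ • t ∈ Bset C := by
    rw [mem_Bset_iff hC S _ (Finsupp.support_smul.trans hS)]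
    refine (Phi_smul_le hC S t a⁻¹ (by positivity) (inv_le_one_of_one_le₀ ha)).trans ?_
    rw [inv_mul_le_iff₀ ha0]; linarith
  have h2 := Q_le_one _ h1
  rw [Q_smul, abs_of_pos (by positivity), inv_mul_le_iff₀ ha0] at h2
  linarith

/-- lower `ℓ₂` bound -/
theorem l2_le_Q (hC : AdmC C) (S : Finset J) (t : J →₀ ℝ) :
    ∑ x ∈ S, (t x) ^ 2 ≤ (Q C t) ^ 2 := by
  have h1 : ∀ a, Q C t < a → ∑ x ∈ S, (t x) ^ 2 ≤ a ^ 2 := by
    intro a ha
    have ha0 : 0 < a := (Q_nonneg t).trans_lt ha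
    have h2 := inv_smul_mem hC t a ha S
    have h3 : ∑ x ∈ S, ((a⁻¹ • t) x) ^ 2 ≤ 1 := by
      unfold Phi at h2
      have : 0 ≤ ∑ x ∈ S, ∑ y ∈ S, C x y * (rho ((a⁻¹ • t) x + (a⁻¹ • t) y)
          + rho ((a⁻¹ • t) x - (a⁻¹ • t) y)) :=
        Finset.sum_nonneg fun x _ => Finset.sum_nonneg fun y _ =>
              mul_nonneg (hC.nonneg x y) (add_nonneg (rho_nonneg _) (rho_nonneg _))
      linarith
    have h4 : ∑ x ∈ S, ((a⁻¹ • t) x) ^ 2 = (a ^ 2)⁻¹ * ∑ x ∈ S, (t x) ^ 2 := by
      rw [Finset.mul_sum]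
      refine Finset.sum_congr rfl fun x _ => ?_
      rw [Finsupp.smul_apply, smul_eq_mul, mul_pow, inv_pow]
    rw [h4, inv_mul_le_iff₀ (by positivity)] at h3
    linarith
  have h2 : √(∑ x ∈ S, (t x) ^ 2) ≤ Q C t := by
    apply le_of_forall_gt_imp_ge_of_dense
    intro a ha
    rw [Real.sqrt_le_left ((Q_nonneg t).trans ha.le)]
    exact h1 a ha
  rw [Real.sqrt_le_left (Q_nonneg t)] at h2
  exact h2

theorem Q_eq_zero (hC : AdmC C) (t : J →₀ ℝ) (h : Q C t = 0) : t = 0 := by
  ext x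
  have h1 := l2_le_Q hC {x} t
  rw [h] at h1
  simp only [Finset.sum_singleton] at h1
  have : t x ^ 2 = 0 := le_antisymm (by simpa using h1) (sq_nonneg _)
  simpa using this

theorem Q_single [DecidableEq J] (hC : AdmC C) (j : J) (c : ℝ) : Q C (Finsupp.single j c) = |c| := by
  have h1 : Q C (Finsupp.single j 1) = 1 := by
    apply le_antisymm
    · apply Q_le_one
      rw [mem_Bset_iff hC {j} _ (Finsupp.support_single_subset)]
      unfold Phi
      simp [hC.diag j]
    · have := l2_le_Q hC {j} (Finsupp.single j 1)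
      simp only [Finset.sum_singleton, Finsupp.single_eq_same] at this
      have h0 := Q_nonneg (C := C) (Finsupp.single j (1:ℝ))
      nlinarith
  have h2 : Finsupp.single j c = c • Finsupp.single j (1:ℝ) := by
    rw [Finsupp.smul_single, smul_eq_mul, mul_one]
  rw [h2, Q_smul, h1, mul_one]

/-- near `ℓ₁` behaviour on coordinate planes -/
theorem l1_le_Q [DecidableEq J] (hC : AdmC C) (i j : J) (hij : i ≠ j) (a b k : ℝ) (hk : 0 < k)
    (hCk : 1 / k ^ 2 ≤ C i j) :
    |a| + |b| ≤ (1 + k) * Q C (Finsupp.single i a + Finsupp.single j b) := by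
  set t : J →₀ ℝ := Finsupp.single i a + Finsupp.single j b with ht
  have hti : t i = a := by
    rw [ht]; simp [hij.symm]
  have htj : t j = b := by
    rw [ht]; simp [hij]
  have key : ∀ c, Q C t < c → |a| + |b| ≤ (1 + k) * c := by
    intro c hc
    have hc0 : 0 < c := (Q_nonneg t).trans_lt hc
    have h2 := inv_smul_mem hC t c hc {i, j}
    have hterm : C i j * (rho ((c⁻¹ • t) i + (c⁻¹ • t) j) + rho ((c⁻¹ • t) i - (c⁻¹ • t) j)) ≤ 1 := by
      unfold Phi at h2
      have e0 : ∀ x y, 0 ≤ C x y * (rho ((c⁻¹ • t) x + (c⁻¹ • t) y)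
          + rho ((c⁻¹ • t) x - (c⁻¹ • t) y)) := fun x y =>
        mul_nonneg (hC.nonneg x y) (add_nonneg (rho_nonneg _) (rho_nonneg _))
      have e1 : C i j * (rho ((c⁻¹ • t) i + (c⁻¹ • t) j) + rho ((c⁻¹ • t) i - (c⁻¹ • t) j))
          ≤ ∑ y ∈ ({i, j} : Finset J), C i y * (rho ((c⁻¹ • t) i + (c⁻¹ • t) y)
            + rho ((c⁻¹ • t) i - (c⁻¹ • t) y)) :=
        Finset.single_le_sum (f := fun y => C i y * (rho ((c⁻¹ • t) i + (c⁻¹ • t) y)
            + rho ((c⁻¹ • t) i - (c⁻¹ • t) y))) (fun y _ => e0 i y) (by simp)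
      have e2 : ∑ y ∈ ({i, j} : Finset J), C i y * (rho ((c⁻¹ • t) i + (c⁻¹ • t) y)
            + rho ((c⁻¹ • t) i - (c⁻¹ • t) y))
          ≤ ∑ x ∈ ({i, j} : Finset J), ∑ y ∈ ({i, j} : Finset J),
            C x y * (rho ((c⁻¹ • t) x + (c⁻¹ • t) y) + rho ((c⁻¹ • t) x - (c⁻¹ • t) y)) :=
        Finset.single_le_sum (f := fun x => ∑ y ∈ ({i, j} : Finset J),
            C x y * (rho ((c⁻¹ • t) x + (c⁻¹ • t) y) + rho ((c⁻¹ • t) x - (c⁻¹ • t) y)))
          (fun x _ => Finset.sum_nonneg fun y _ => e0 x y) (by simp)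
      have e3 : 0 ≤ ∑ x ∈ ({i, j} : Finset J), ((c⁻¹ • t) x) ^ 2 :=
        Finset.sum_nonneg fun _ _ => sq_nonneg _
      linarith
    have hsum : rho ((c⁻¹ • t) i + (c⁻¹ • t) j) + rho ((c⁻¹ • t) i - (c⁻¹ • t) j) ≤ k ^ 2 := by
      have hr0 : 0 ≤ rho ((c⁻¹ • t) i + (c⁻¹ • t) j) + rho ((c⁻¹ • t) i - (c⁻¹ • t) j) :=
        add_nonneg (rho_nonneg _) (rho_nonneg _)
      have h3 : 1 / k ^ 2 * (rho ((c⁻¹ • t) i + (c⁻¹ • t) j) + rho ((c⁻¹ • t) i - (c⁻¹ • t) j)) ≤ 1 :=
        (mul_le_mul_of_nonneg_right hCk hr0).trans hterm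
      rw [one_div, inv_mul_le_iff₀ (by positivity)] at h3
      linarith
    have h4 := rho_bound _ k hk.le (by linarith [rho_nonneg ((c⁻¹ • t) i - (c⁻¹ • t) j)] :
      rho ((c⁻¹ • t) i + (c⁻¹ • t) j) ≤ k ^ 2)
    have h5 := rho_bound _ k hk.le (by linarith [rho_nonneg ((c⁻¹ • t) i + (c⁻¹ • t) j)] :
      rho ((c⁻¹ • t) i - (c⁻¹ • t) j) ≤ k ^ 2)
    simp only [Finsupp.smul_apply, smul_eq_mul, hti, htj] at h4 h5
    have h6 : |a + b| ≤ (1 + k) * c := by
      rw [← mul_add, abs_mul, abs_inv, abs_of_pos hc0, inv_mul_le_iff₀ hc0] at h4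
      linarith
    have h7 : |a - b| ≤ (1 + k) * c := by
      rw [← mul_sub, abs_mul, abs_inv, abs_of_pos hc0, inv_mul_le_iff₀ hc0] at h5
      linarith
    rw [abs_le] at h6 h7
    rcases abs_cases a with ⟨ha, _⟩ | ⟨ha, _⟩ <;> rcases abs_cases b with ⟨hb, _⟩ | ⟨hb, _⟩ <;>
      rw [ha, hb] <;> linarith [h6.1, h6.2, h7.1, h7.2]
  have h8 : (|a| + |b|) / (1 + k) ≤ Q C t := by
    apply le_of_forall_gt_imp_ge_of_dense
    intro c hc
    rw [div_le_iff₀ (by linarith)]
    linarith [key c hc]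
  rw [div_le_iff₀ (by linarith)] at h8
  linarith

end

end Pool.Agent.Lib.Helper35.Tiling
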