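import Mathlib
import Pool.Agent.Lib.Helper35.Tiling.Q
set_option autoImplicit false
open Filter Topology

namespace Pool.Agent.Lib.Helper35.Tiling

noncomputable section

variable {J : Type*} {C : J → J → ℝ}

/-- directional derivative of the modular -/
def LL (C : J → J → ℝ) (S : Finset J) (t h : J →₀ ℝ) : ℝ :=
  ∑ x ∈ S, 2 * t x * h x + ∑ x ∈ S, ∑ y ∈ S, C x y *
    (rho' (t x + t y) * (h x + h y) + rho' (t x - t y) * (h x - h y))

theorem hasDerivAt_Phi (S : Finset J) (t h : J →₀ ℝ) :
    HasDerivAt (fun s : ℝ => Phi C S (t + s • h)) (LL C S t h) 0 := by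
  unfold Phi LL
  apply HasDerivAt.add
  · apply HasDerivAt.fun_sum
    intro x _
    have h1 : HasDerivAt (fun s : ℝ => (t + s • h) x) (h x) 0 := by
      have : (fun s : ℝ => (t + s • h) x) = fun s : ℝ => t x + s * h x := by
        funext s; simp
      rw [this]
      have h2 : HasDerivAt (fun s : ℝ => s * h x) (1 * h x) 0 := (hasDerivAt_id (0:ℝ)).mul_const (h x)
      rw [one_mul] at h2
      exact h2.const_add (t x)
    have h2 := h1.pow 2
    have h3 : (2:ℕ) * ((t + (0:ℝ) • h) x) ^ (2 - 1) * h x = 2 * t x * h x := by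
      simp
    rw [h3] at h2
    exact h2
  · apply HasDerivAt.fun_sum
    intro x _
    apply HasDerivAt.fun_sum
    intro y _
    apply HasDerivAt.const_mul
    have key : ∀ (a b : ℝ), HasDerivAt (fun s : ℝ => rho (a + s * b)) (rho' a * b) 0 := by
      intro a b
      have h2 : HasDerivAt (fun s : ℝ => a + s * b) b 0 := by
        have h3 : HasDerivAt (fun s : ℝ => s * b) (1 * b) 0 := (hasDerivAt_id (0:ℝ)).mul_const b
        rw [one_mul] at h3
        exact h3.const_add a
      have h4 : HasDerivAt rho (rho' a) (a + 0 * b) := by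
        rw [zero_mul, add_zero]; exact hasDerivAt_rho a
      exact HasDerivAt.comp (h₂ := rho) (h := fun s : ℝ => a + s * b) 0 h4 h2
    apply HasDerivAt.add
    · have h5 := key (t x + t y) (h x + h y)
      have h6 : (fun s : ℝ => rho ((t + s • h) x + (t + s • h) y))
          = (fun s : ℝ => rho (t x + t y + s * (h x + h y))) := by
        funext s
        congr 1
        simp only [Finsupp.coe_add, Finsupp.coe_smul, Pi.add_apply, Pi.smul_apply, smul_eq_mul]
        ring
      rw [h6]
      exact h5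
    · have h5 := key (t x - t y) (h x - h y)
      have h6 : (fun s : ℝ => rho ((t + s • h) x - (t + s • h) y))
          = (fun s : ℝ => rho (t x - t y + s * (h x - h y))) := by
        funext s
        congr 1
        simp only [Finsupp.coe_add, Finsupp.coe_smul, Pi.add_apply, Pi.smul_apply, smul_eq_mul]
        ring
      rw [h6]
      exact h5

theorem LL_sub_smul (S : Finset J) (t h : J →₀ ℝ) (a : ℝ) :
    LL C S t (h - a • t) = LL C S t h - a * LL C S t t := by
  unfold LL
  have e1 : ∑ x ∈ S, 2 * t x * (h - a • t) x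
      = ∑ x ∈ S, 2 * t x * h x - a * ∑ x ∈ S, 2 * t x * t x := by
    rw [Finset.mul_sum, ← Finset.sum_sub_distrib]
    refine Finset.sum_congr rfl fun x _ => ?_
    simp only [Finsupp.coe_sub, Finsupp.coe_smul, Pi.sub_apply, Pi.smul_apply, smul_eq_mul]
    ring
  have e2 : ∑ x ∈ S, ∑ y ∈ S, C x y *
      (rho' (t x + t y) * ((h - a • t) x + (h - a • t) y)
        + rho' (t x - t y) * ((h - a • t) x - (h - a • t) y))
      = ∑ x ∈ S, ∑ y ∈ S, C x y *
        (rho' (t x + t y) * (h x + h y) + rho' (t x - t y) * (h x - h y))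
        - a * ∑ x ∈ S, ∑ y ∈ S, C x y *
        (rho' (t x + t y) * (t x + t y) + rho' (t x - t y) * (t x - t y)) := by
    rw [Finset.mul_sum, ← Finset.sum_sub_distrib]
    refine Finset.sum_congr rfl fun x _ => ?_
    rw [Finset.mul_sum, ← Finset.sum_sub_distrib]
    refine Finset.sum_congr rfl fun y _ => ?_
    simp only [Finsupp.coe_sub, Finsupp.coe_smul, Pi.sub_apply, Pi.smul_apply, smul_eq_mul]
    ring
  rw [e1, e2]; ring

theorem LL_self_pos (hC : AdmC C) (S : Finset J) (t : J →₀ ℝ) (hS : t.support ⊆ S) (ht : t ≠ 0) :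
    0 < LL C S t t := by
  unfold LL
  have e1 : 0 < ∑ x ∈ S, 2 * t x * t x := by
    obtain ⟨x, hx⟩ := Finsupp.support_nonempty_iff.2 ht
    apply Finset.sum_pos'
    · intro y _
      nlinarith [mul_self_nonneg (t y)]
    · refine ⟨x, hS hx, ?_⟩
      have : t x ≠ 0 := Finsupp.mem_support_iff.1 hx
      have := mul_self_pos.2 this
      nlinarith
  have e2 : 0 ≤ ∑ x ∈ S, ∑ y ∈ S, C x y *
        (rho' (t x + t y) * (t x + t y) + rho' (t x - t y) * (t x - t y)) :=
    Finset.sum_nonneg fun x _ => Finset.sum_nonneg fun y _ =>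
      mul_nonneg (hC.nonneg x y) (add_nonneg (rho'_mul_nonneg _) (rho'_mul_nonneg _))
  linarith

theorem Phi_line_continuous (S : Finset J) (u h : J →₀ ℝ) :
    Continuous (fun s : ℝ => Phi C S (u + s • h)) := by
  have hrho : Continuous rho := by
    unfold rho; fun_prop
  unfold Phi
  simp only [Finsupp.coe_add, Finsupp.coe_smul, Pi.add_apply, Pi.smul_apply, smul_eq_mul]
  fun_prop

theorem Phi_le_one_of_Q_le_one (hC : AdmC C) (S : Finset J) (t : J →₀ ℝ) (h : Q C t ≤ 1) :
    Phi C S t ≤ 1 := by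
  have h1 : Tendsto (fun s : ℝ => Phi C S (t + s • t)) (𝓝[<] 0) (𝓝 (Phi C S (t + (0:ℝ) • t))) :=
    ((Phi_line_continuous S t t).tendsto 0).mono_left nhdsWithin_le_nhds
  rw [zero_smul, add_zero] at h1
  refine le_of_tendsto h1 ?_
  have h2 : Set.Ioo (-1:ℝ) 0 ∈ 𝓝[<] (0:ℝ) := Ioo_mem_nhdsLT (by norm_num)
  filter_upwards [h2] with s hs
  have hs1 : 0 < 1 + s := by linarith [hs.1]
  have h3 : t + s • t = ((1 + s)⁻¹)⁻¹ • t := by
    rw [inv_inv, add_smul, one_smul]
  rw [h3]
  apply inv_smul_mem hC t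
  refine h.trans_lt ?_
  rw [one_lt_inv₀ hs1]
  linarith [hs.2]

theorem Q_strict (hC : AdmC C) (t s : J →₀ ℝ) (ht : Q C t = 1) (hs : Q C s = 1) (hne : t ≠ s) :
    Q C (t + s) < 2 := by
  classical
  set S := t.support ∪ s.support with hS
  have h1 := Phi_le_one_of_Q_le_one hC S t ht.le
  have h2 := Phi_le_one_of_Q_le_one hC S s hs.le
  set u : J →₀ ℝ := (1 / 2 : ℝ) • t + (1 / 2 : ℝ) • s with hu
  have h3 := Phi_convex hC S t s (1 / 2) (1 / 2) (by norm_num) (by norm_num) (by norm_num)
  rw [← hu] at h3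
  have h4 : 0 < ∑ x ∈ S, (t x - s x) ^ 2 := by
    obtain ⟨x, hx⟩ : ∃ x, t x ≠ s x := by
      by_contra hcon
      push Not at hcon
      exact hne (Finsupp.ext hcon)
    have hxS : x ∈ S := by
      rw [hS, Finset.mem_union, Finsupp.mem_support_iff, Finsupp.mem_support_iff]
      by_contra hcon
      push Not at hcon
      exact hx (by rw [hcon.1, hcon.2])
    apply Finset.sum_pos' (fun y _ => sq_nonneg _)
    refine ⟨x, hxS, ?_⟩
    have : t x - s x ≠ 0 := sub_ne_zero.2 hx
    positivity
  have h5 : Phi C S u < 1 := by nlinarith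
  have husup : u.support ⊆ S := by
    rw [hu, hS]
    refine Finsupp.support_add.trans ?_
    exact Finset.union_subset_union Finsupp.support_smul Finsupp.support_smul
  -- a slightly larger multiple is still in the ball
  have h6 : ∀ᶠ c : ℝ in 𝓝 0, Phi C S (u + c • u) < 1 := by
    have h7 := (Phi_line_continuous (C := C) S u u).tendsto 0
    rw [zero_smul, add_zero] at h7
    exact h7.eventually_lt_const h5
  obtain ⟨δ, hδ, hball⟩ := Metric.eventually_nhds_iff.1 h6
  have h7 : Phi C S (u + (δ / 2) • u) < 1 := by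
    apply hball
    rw [Real.dist_eq, sub_zero, abs_of_pos (by positivity)]
    linarith
  have h8 : (1 + δ / 2) • u ∈ Bset C := by
    have : (1 + δ / 2) • u = u + (δ / 2) • u := by rw [add_smul, one_smul]
    rw [this, mem_Bset_iff hC S]
    · exact h7.le
    · rw [← this]; exact Finsupp.support_smul.trans husup
  have h9 := Q_le_one _ h8
  rw [Q_smul, abs_of_pos (by positivity)] at h9
  have h10 : Q C u < 1 := by
    have := Q_nonneg (C := C) u
    nlinarith
  have h11 : t + s = (2:ℝ) • u := by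
    rw [hu, smul_add, smul_smul, smul_smul]; norm_num
  rw [h11, Q_smul]
  norm_num
  linarith

/-- general form of strict convexity -/
theorem Q_strict' (hC : AdmC C) (t s : J →₀ ℝ) (hts : Q C t = Q C s)
    (h : Q C (t + s) = 2 * Q C t) : t = s := by
  rcases (Q_nonneg (C := C) t).eq_or_lt with h0 | h0
  · rw [Q_eq_zero hC t h0.symm, Q_eq_zero hC s (by rw [← hts]; exact h0.symm)]
  · by_contra hne
    set q := Q C t with hq
    have h1 : Q C (q⁻¹ • t) = 1 := by
      rw [Q_smul, abs_of_pos (by positivity), ← hq]; field_simp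
    have h2 : Q C (q⁻¹ • s) = 1 := by
      rw [Q_smul, abs_of_pos (by positivity), ← hts]; field_simp
    have h3 : q⁻¹ • t ≠ q⁻¹ • s := by
      intro hcon
      apply hne
      have := congrArg (fun v => q • v) hcon
      simp only [smul_smul] at this
      rw [mul_inv_cancel₀ h0.ne', one_smul, one_smul] at this
      exact this
    have h4 := Q_strict hC _ _ h1 h2 h3
    rw [← smul_add, Q_smul, abs_of_pos (by positivity), h] at h4
    have : q⁻¹ * (2 * q) = 2 := by field_simp
    rw [this] at h4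
    exact lt_irrefl _ h4

theorem Q_smooth_one (hC : AdmC C) (t h : J →₀ ℝ) (ht : Q C t = 1) (ε : ℝ) (hε : 0 < ε) :
    ∃ δ > 0, ∀ s : ℝ, 0 < s → s < δ → Q C (t + s • h) + Q C (t - s • h) ≤ 2 + ε * s := by
  classical
  have ht0 : t ≠ 0 := by
    intro hcon
    rw [hcon, Q_zero] at ht
    norm_num at ht
  set S := t.support ∪ h.support with hS
  have hPt := Phi_le_one_of_Q_le_one hC S t ht.le
  have hL := LL_self_pos hC S t Finset.subset_union_left ht0
  set a : ℝ := LL C S t h / LL C S t t with ha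
  set k : J →₀ ℝ := h - a • t with hk
  have hLk : LL C S t k = 0 := by
    rw [hk, LL_sub_smul, ha]; field_simp; ring
  have hd := hasDerivAt_Phi (C := C) S t k
  rw [hLk, hasDerivAt_iff_isLittleO_nhds_zero] at hd
  have hd2 := hd.def (by positivity : 0 < ε / 2)
  obtain ⟨δ, hδ, hball⟩ := Metric.eventually_nhds_iff.1 hd2
  have hkey : ∀ s : ℝ, |s| < δ → Q C (t + s • k) ≤ 1 + ε / 2 * |s| := by
    intro s hs
    have h1 := @hball s (by rw [Real.dist_eq, sub_zero]; exact hs)
    simp only [zero_add, zero_smul, add_zero, smul_zero, sub_zero, Real.norm_eq_abs] at h1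
    have h2 := (abs_le.1 h1).2
    apply Q_le_of_Phi_le hC S
    · refine Finsupp.support_add.trans ?_
      apply Finset.union_subset Finset.subset_union_left
      refine Finsupp.support_smul.trans ?_
      rw [hk]
      refine (Finsupp.support_sub).trans ?_
      apply Finset.union_subset Finset.subset_union_right
      exact Finsupp.support_smul.trans Finset.subset_union_left
    · have : 0 ≤ ε / 2 * |s| := by positivity
      linarith
    · linarith
  refine ⟨min (δ / 2) (1 / (2 * (|a| + 1))), by positivity, ?_⟩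
  intro s hs0 hs
  have hs1 : s < δ / 2 := hs.trans_le (min_le_left _ _)
  have hs2 : s < 1 / (2 * (|a| + 1)) := hs.trans_le (min_le_right _ _)
  have has : |a| * s < 1 / 2 := by
    rw [lt_div_iff₀ (by positivity)] at hs2
    have := abs_nonneg a
    nlinarith
  have hgen : ∀ σ : ℝ, |σ| = s → Q C (t + σ • h) ≤ (1 + a * σ) + ε / 2 * s := by
    intro σ hσ
    have h1 : |a * σ| < 1 / 2 := by rw [abs_mul, hσ]; exact has
    rw [abs_lt] at h1
    have hpos : 0 < 1 + a * σ := by linarith
    have h2 : t + σ • h = (1 + a * σ) • (t + (σ / (1 + a * σ)) • k) := by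
      rw [smul_add, smul_smul, mul_div_cancel₀ _ hpos.ne', hk, smul_sub, smul_smul, add_smul,
        one_smul, mul_comm σ a]
      abel
    rw [h2, Q_smul, abs_of_pos hpos]
    have h3 : |σ / (1 + a * σ)| = s / (1 + a * σ) := by
      rw [abs_div, hσ, abs_of_pos hpos]
    have h4 : s / (1 + a * σ) < δ := by
      rw [div_lt_iff₀ hpos]
      nlinarith
    have h5 := hkey (σ / (1 + a * σ)) (by rw [h3]; exact h4)
    rw [h3] at h5
    calc (1 + a * σ) * Q C (t + (σ / (1 + a * σ)) • k)
        ≤ (1 + a * σ) * (1 + ε / 2 * (s / (1 + a * σ))) := by gcongr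
      _ = (1 + a * σ) + ε / 2 * s := by field_simp
  have h1 := hgen s (abs_of_pos hs0)
  have h2 := hgen (-s) (by rw [abs_neg, abs_of_pos hs0])
  have h3 : t - s • h = t + (-s) • h := by rw [neg_smul, sub_eq_add_neg]
  rw [h3]
  linarith

/-- second difference bound for the square of the norm -/
theorem Q_sq_smooth (hC : AdmC C) (t h : J →₀ ℝ) (ε : ℝ) (hε : 0 < ε) :
    ∃ δ > 0, ∀ s : ℝ, 0 < s → s < δ →
      (Q C (t + s • h)) ^ 2 + (Q C (t - s • h)) ^ 2 ≤ 2 * (Q C t) ^ 2 + ε * s := by
  set b := Q C h with hb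
  have hb0 : 0 ≤ b := Q_nonneg h
  rcases (Q_nonneg (C := C) t).eq_or_lt with h0 | h0
  · have ht := Q_eq_zero hC t h0.symm
    subst ht
    refine ⟨ε / (2 * (b ^ 2 + 1)), by positivity, ?_⟩
    intro s hs0 hs
    rw [zero_add, zero_sub, Q_neg, Q_smul, Q_zero, abs_of_pos hs0, ← hb]
    rw [lt_div_iff₀ (by positivity)] at hs
    nlinarith [sq_nonneg b]
  · set q := Q C t with hq
    have h1 : Q C (q⁻¹ • t) = 1 := by
      rw [Q_smul, abs_of_pos (by positivity), ← hq]; field_simp
    obtain ⟨δ, hδ, hsm⟩ := Q_smooth_one hC (q⁻¹ • t) (q⁻¹ • h) h1 (ε / (4 * q ^ 2)) (by positivity)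
    -- linear bound for Q (t ± s h)
    refine ⟨min δ (ε / (4 * (b ^ 2 + 1))), by positivity, ?_⟩
    intro s hs0 hs
    have hs1 : s < δ := hs.trans_le (min_le_left _ _)
    have hs2 : s < ε / (4 * (b ^ 2 + 1)) := hs.trans_le (min_le_right _ _)
    have h2 := hsm s hs0 hs1
    have e1 : q⁻¹ • t + s • q⁻¹ • h = q⁻¹ • (t + s • h) := by
      rw [smul_add, smul_comm]
    have e2 : q⁻¹ • t - s • q⁻¹ • h = q⁻¹ • (t - s • h) := by
      rw [smul_sub, smul_comm]
    rw [e1, e2, Q_smul, Q_smul, abs_of_pos (by positivity : 0 < q⁻¹)] at h2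
    set u := Q C (t + s • h) with hu
    set v := Q C (t - s • h) with hv
    have h3 : u + v ≤ 2 * q + ε / (4 * q) * s := by
      have : q⁻¹ * u + q⁻¹ * v = (u + v) / q := by field_simp
      rw [this, div_le_iff₀ h0] at h2
      calc u + v ≤ (2 + ε / (4 * q ^ 2) * s) * q := h2
        _ = 2 * q + ε / (4 * q) * s := by field_simp
    have hu1 : u ≤ q + s * b := by
      have := Q_add_le hC t (s • h)
      rw [Q_smul, abs_of_pos hs0] at this
      exact this
    have hv1 : v ≤ q + s * b := by
      have := Q_add_le hC t (-(s • h))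
      rw [Q_neg, Q_smul, abs_of_pos hs0, ← sub_eq_add_neg] at this
      exact this
    have hu0 : 0 ≤ u := Q_nonneg _
    have hv0 : 0 ≤ v := Q_nonneg _
    have hu2 : q - s * b ≤ u := by
      have := Q_add_le hC (t + s • h) (-(s • h))
      rw [Q_neg, Q_smul, abs_of_pos hs0, add_neg_cancel_right] at this
      linarith
    have hv2 : q - s * b ≤ v := by
      have := Q_add_le hC (t - s • h) (s • h)
      rw [Q_smul, abs_of_pos hs0, sub_add_cancel] at this
      linarith
    -- u² + v² - 2q² = 2q(u+v-2q) + (u-q)² + (v-q)²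
    have e3 : u ^ 2 + v ^ 2 - 2 * q ^ 2 = 2 * q * (u + v - 2 * q) + (u - q) ^ 2 + (v - q) ^ 2 := by
      ring
    have e4 : (u - q) ^ 2 ≤ (s * b) ^ 2 := by
      apply sq_le_sq'
      · linarith
      · linarith
    have e5 : (v - q) ^ 2 ≤ (s * b) ^ 2 := by
      apply sq_le_sq'
      · linarith
      · linarith
    have e6 : 2 * q * (u + v - 2 * q) ≤ ε / 2 * s := by
      have : u + v - 2 * q ≤ ε / (4 * q) * s := by linarith
      calc 2 * q * (u + v - 2 * q) ≤ 2 * q * (ε / (4 * q) * s) := by gcongr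
        _ = ε / 2 * s := by field_simp; ring
    have e7 : (s * b) ^ 2 ≤ ε / 4 * s := by
      rw [lt_div_iff₀ (by positivity)] at hs2
      nlinarith [sq_nonneg b]
    linarith

end

end Pool.Agent.Lib.Helper35.Tiling
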