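import Mathlib
import Pool.Agent.Lib.Helper35.Tiling.QSmooth
set_option autoImplicit false
open Filter Topology

namespace Pool.Agent.Lib.Helper35.Tiling

noncomputable section

variable {J : Type*}

/-- the ambient vector space -/
abbrev EE (J : Type*) := ℕ →₀ (J →₀ ℝ)

/-- the `ℓ₂` sum of the norms `Q (C n)` -/
def N (C : ℕ → J → J → ℝ) (y : EE J) : ℝ := √(∑ n ∈ y.support, (Q (C n) (y n)) ^ 2)

variable {C : ℕ → J → J → ℝ}

theorem sum_eq_of_subset (y : EE J) (S : Finset ℕ) (hS : y.support ⊆ S) :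
    ∑ n ∈ y.support, (Q (C n) (y n)) ^ 2 = ∑ n ∈ S, (Q (C n) (y n)) ^ 2 := by
  apply Finset.sum_subset hS
  intro n _ hn
  rw [Finsupp.notMem_support_iff.1 hn, Q_zero]; norm_num

theorem N_sq (y : EE J) (S : Finset ℕ) (hS : y.support ⊆ S) :
    (N C y) ^ 2 = ∑ n ∈ S, (Q (C n) (y n)) ^ 2 := by
  unfold N
  rw [Real.sq_sqrt (Finset.sum_nonneg fun _ _ => sq_nonneg _), sum_eq_of_subset y S hS]

theorem N_nonneg (y : EE J) : 0 ≤ N C y := Real.sqrt_nonneg _

theorem N_eq (y : EE J) (S : Finset ℕ) (hS : y.support ⊆ S) :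
    N C y = √(∑ n ∈ S, (Q (C n) (y n)) ^ 2) := by
  rw [← N_sq y S hS, Real.sqrt_sq (N_nonneg y)]

theorem N_zero : N C 0 = 0 := by simp [N]

theorem N_neg (y : EE J) : N C (-y) = N C y := by
  unfold N
  rw [Finsupp.support_neg]
  congr 1
  refine Finset.sum_congr rfl fun n _ => ?_
  rw [Finsupp.neg_apply, Q_neg]

theorem N_sub_comm (y z : EE J) : N C (y - z) = N C (z - y) := by
  have h : z - y = -(y - z) := (neg_sub y z).symm
  rw [h, N_neg]

theorem N_smul (a : ℝ) (y : EE J) : N C (a • y) = |a| * N C y := by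
  have h1 : (N C (a • y)) ^ 2 = (|a| * N C y) ^ 2 := by
    rw [N_sq (a • y) y.support Finsupp.support_smul, mul_pow, N_sq y y.support (Finset.Subset.refl _),
      Finset.mul_sum]
    refine Finset.sum_congr rfl fun n _ => ?_
    rw [Finsupp.smul_apply, Q_smul, mul_pow]
  exact (sq_eq_sq₀ (N_nonneg _) (mul_nonneg (abs_nonneg _) (N_nonneg _))).1 h1

theorem N_add_le (hC : ∀ n, AdmC (C n)) (y z : EE J) : N C (y + z) ≤ N C y + N C z := by
  classical
  set S := y.support ∪ z.support with hS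
  have hy := N_sq (C := C) y S Finset.subset_union_left
  have hz := N_sq (C := C) z S Finset.subset_union_right
  have hyz := N_sq (C := C) (y + z) S Finsupp.support_add
  have h1 : ∑ n ∈ S, Q (C n) (y n) * Q (C n) (z n) ≤ N C y * N C z := by
    have := Real.sum_mul_le_sqrt_mul_sqrt S (fun n => Q (C n) (y n)) (fun n => Q (C n) (z n))
    rwa [← N_eq y S Finset.subset_union_left, ← N_eq z S Finset.subset_union_right] at this
  have h2 : (N C (y + z)) ^ 2 ≤ (N C y + N C z) ^ 2 := by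
    rw [hyz]
    calc ∑ n ∈ S, (Q (C n) ((y + z) n)) ^ 2
        ≤ ∑ n ∈ S, (Q (C n) (y n) + Q (C n) (z n)) ^ 2 := by
          apply Finset.sum_le_sum fun n _ => ?_
          have h3 := Q_nonneg (C := C n) ((y + z) n)
          have h4 := Q_add_le (hC n) (y n) (z n)
          rw [← Finsupp.add_apply] at h4
          gcongr
      _ = ∑ n ∈ S, (Q (C n) (y n)) ^ 2 + ∑ n ∈ S, (Q (C n) (z n)) ^ 2
          + 2 * ∑ n ∈ S, Q (C n) (y n) * Q (C n) (z n) := by
          rw [Finset.mul_sum, ← Finset.sum_add_distrib, ← Finset.sum_add_distrib]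
          refine Finset.sum_congr rfl fun n _ => ?_
          ring
      _ ≤ (N C y) ^ 2 + (N C z) ^ 2 + 2 * (N C y * N C z) := by rw [← hy, ← hz]; linarith
      _ = (N C y + N C z) ^ 2 := by ring
  exact (abs_le_of_sq_le_sq' h2 (add_nonneg (N_nonneg _) (N_nonneg _))).2

theorem N_eq_zero (hC : ∀ n, AdmC (C n)) (y : EE J) (h : N C y = 0) : y = 0 := by
  by_contra hne
  obtain ⟨n, hn⟩ := Finsupp.support_nonempty_iff.2 hne
  have h1 := N_sq (C := C) y y.support (Finset.Subset.refl _)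
  rw [h] at h1
  have h2 : (Q (C n) (y n)) ^ 2 ≤ ∑ n ∈ y.support, (Q (C n) (y n)) ^ 2 :=
    Finset.single_le_sum (f := fun n => (Q (C n) (y n)) ^ 2) (fun _ _ => sq_nonneg _) hn
  have h3 : (Q (C n) (y n)) ^ 2 = 0 := le_antisymm (by rw [← h1] at h2; simpa using h2) (sq_nonneg _)
  have h4 : Q (C n) (y n) = 0 := by simpa using h3
  exact (Finsupp.mem_support_iff.1 hn) (Q_eq_zero (hC n) _ h4)

theorem N_pos (hC : ∀ n, AdmC (C n)) (y : EE J) (h : y ≠ 0) : 0 < N C y :=
  lt_of_le_of_ne (N_nonneg y) fun h1 => h (N_eq_zero hC y h1.symm)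

theorem N_strict (hC : ∀ n, AdmC (C n)) (y z : EE J) (hy : N C y = 1) (hz : N C z = 1)
    (hne : y ≠ z) : N C (y + z) < 2 := by
  classical
  by_contra hcon
  rw [not_lt] at hcon
  apply hne
  set S := y.support ∪ z.support with hS
  have hy2 := N_sq (C := C) y S Finset.subset_union_left
  have hz2 := N_sq (C := C) z S Finset.subset_union_right
  have hyz := N_sq (C := C) (y + z) S Finsupp.support_add
  rw [hy] at hy2
  rw [hz] at hz2
  have h4 : (4:ℝ) ≤ ∑ n ∈ S, (Q (C n) ((y + z) n)) ^ 2 := by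
    rw [← hyz]; nlinarith
  -- termwise
  have hterm : ∀ n ∈ S, 0 ≤ 2 * (Q (C n) (y n)) ^ 2 + 2 * (Q (C n) (z n)) ^ 2
      - (Q (C n) ((y + z) n)) ^ 2 - (Q (C n) (y n) - Q (C n) (z n)) ^ 2 := by
    intro n _
    have h5 := Q_nonneg (C := C n) ((y + z) n)
    have h6 := Q_add_le (hC n) (y n) (z n)
    rw [← Finsupp.add_apply] at h6
    have h7 : (Q (C n) ((y + z) n)) ^ 2 ≤ (Q (C n) (y n) + Q (C n) (z n)) ^ 2 := by gcongr
    nlinarith
  have hsum : ∑ n ∈ S, (2 * (Q (C n) (y n)) ^ 2 + 2 * (Q (C n) (z n)) ^ 2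
      - (Q (C n) ((y + z) n)) ^ 2 - (Q (C n) (y n) - Q (C n) (z n)) ^ 2)
      + ∑ n ∈ S, (Q (C n) (y n) - Q (C n) (z n)) ^ 2 ≤ 0 := by
    rw [← Finset.sum_add_distrib]
    have : ∀ n ∈ S, (2 * (Q (C n) (y n)) ^ 2 + 2 * (Q (C n) (z n)) ^ 2
      - (Q (C n) ((y + z) n)) ^ 2 - (Q (C n) (y n) - Q (C n) (z n)) ^ 2)
      + (Q (C n) (y n) - Q (C n) (z n)) ^ 2 = 2 * (Q (C n) (y n)) ^ 2 + 2 * (Q (C n) (z n)) ^ 2
        - (Q (C n) ((y + z) n)) ^ 2 := fun n _ => by ring
    rw [Finset.sum_congr rfl this, Finset.sum_sub_distrib, Finset.sum_add_distrib,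
      ← Finset.mul_sum, ← Finset.mul_sum, ← hy2, ← hz2]
    linarith
  have hA : 0 ≤ ∑ n ∈ S, (2 * (Q (C n) (y n)) ^ 2 + 2 * (Q (C n) (z n)) ^ 2
      - (Q (C n) ((y + z) n)) ^ 2 - (Q (C n) (y n) - Q (C n) (z n)) ^ 2) :=
    Finset.sum_nonneg hterm
  have hB : 0 ≤ ∑ n ∈ S, (Q (C n) (y n) - Q (C n) (z n)) ^ 2 :=
    Finset.sum_nonneg fun _ _ => sq_nonneg _
  have hA0 : ∑ n ∈ S, (2 * (Q (C n) (y n)) ^ 2 + 2 * (Q (C n) (z n)) ^ 2
      - (Q (C n) ((y + z) n)) ^ 2 - (Q (C n) (y n) - Q (C n) (z n)) ^ 2) = 0 := by linarith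
  have hB0 : ∑ n ∈ S, (Q (C n) (y n) - Q (C n) (z n)) ^ 2 = 0 := by linarith
  rw [Finset.sum_eq_zero_iff_of_nonneg hterm] at hA0
  rw [Finset.sum_eq_zero_iff_of_nonneg fun _ _ => sq_nonneg _] at hB0
  ext1 n
  by_cases hn : n ∈ S
  · have h5 := hA0 n hn
    have h6 := hB0 n hn
    have h7 : Q (C n) (y n) = Q (C n) (z n) := by
      have : Q (C n) (y n) - Q (C n) (z n) = 0 := by simpa using h6
      linarith
    apply Q_strict' (hC n) _ _ h7
    rw [h6, ← h7, Finsupp.add_apply] at h5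
    have h8 : (Q (C n) (y n + z n)) ^ 2 = (2 * Q (C n) (y n)) ^ 2 := by linarith
    exact (sq_eq_sq₀ (Q_nonneg _) (mul_nonneg (by norm_num) (Q_nonneg _))).1 h8
  · rw [hS, Finset.mem_union, not_or, Finsupp.notMem_support_iff, Finsupp.notMem_support_iff] at hn
    rw [hn.1, hn.2]

theorem N_smooth (hC : ∀ n, AdmC (C n)) (y h : EE J) (hy : y ≠ 0) (ε : ℝ) (hε : 0 < ε) :
    ∀ᶠ s : ℝ in 𝓝[>] 0, N C (y + s • h) + N C (y - s • h) ≤ 2 * N C y + ε * s := by
  classical
  set S := y.support ∪ h.support with hS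
  set w := N C y with hw
  have hw0 : 0 < w := N_pos hC y hy
  set ε' : ℝ := 2 * w * ε / (S.card + 1) with hε'
  have hε'0 : 0 < ε' := by positivity
  have h1 : ∀ᶠ s : ℝ in 𝓝[>] 0, ∀ n ∈ S,
      (Q (C n) (y n + s • h n)) ^ 2 + (Q (C n) (y n - s • h n)) ^ 2
        ≤ 2 * (Q (C n) (y n)) ^ 2 + ε' * s := by
    rw [Filter.eventually_all_finset]
    intro n _
    obtain ⟨δ, hδ, hb⟩ := Q_sq_smooth (hC n) (y n) (h n) ε' hε'0
    filter_upwards [Ioo_mem_nhdsGT hδ] with s hs
    exact hb s hs.1 hs.2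
  filter_upwards [h1, self_mem_nhdsWithin] with s hs hs0
  have hs0' : 0 < s := hs0
  have hsup1 : (y + s • h).support ⊆ S :=
    Finsupp.support_add.trans (Finset.union_subset_union (Finset.Subset.refl _) Finsupp.support_smul)
  have hsup2 : (y - s • h).support ⊆ S :=
    Finsupp.support_sub.trans (Finset.union_subset_union (Finset.Subset.refl _) Finsupp.support_smul)
  have e1 := N_sq (C := C) (y + s • h) S hsup1
  have e2 := N_sq (C := C) (y - s • h) S hsup2
  have e3 := N_sq (C := C) y S Finset.subset_union_left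
  set u := N C (y + s • h) with hu
  set v := N C (y - s • h) with hv
  have h2 : u ^ 2 + v ^ 2 ≤ 2 * w ^ 2 + 2 * w * ε * s := by
    rw [e1, e2, e3, ← Finset.sum_add_distrib]
    calc ∑ n ∈ S, ((Q (C n) ((y + s • h) n)) ^ 2 + (Q (C n) ((y - s • h) n)) ^ 2)
        ≤ ∑ n ∈ S, (2 * (Q (C n) (y n)) ^ 2 + ε' * s) := Finset.sum_le_sum fun n hn => hs n hn
      _ = 2 * ∑ n ∈ S, (Q (C n) (y n)) ^ 2 + S.card * (ε' * s) := by
          rw [Finset.sum_add_distrib, ← Finset.mul_sum, Finset.sum_const, nsmul_eq_mul]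
      _ ≤ 2 * ∑ n ∈ S, (Q (C n) (y n)) ^ 2 + 2 * w * ε * s := by
          have h3 : (S.card : ℝ) * ε' ≤ 2 * w * ε := by
            rw [hε', mul_div_assoc', div_le_iff₀ (by positivity)]
            have : 0 < w * ε := by positivity
            nlinarith
          have : (S.card : ℝ) * (ε' * s) ≤ 2 * w * ε * s := by
            rw [← mul_assoc]; gcongr
          linarith
  have h4 : 2 * w * (u + v - 2 * w) ≤ 2 * w * ε * s := by
    nlinarith [sq_nonneg (u - w), sq_nonneg (v - w)]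
  have h5 : u + v - 2 * w ≤ ε * s := by
    have h6 : 2 * w * (u + v - 2 * w) ≤ 2 * w * (ε * s) := by linarith
    exact le_of_mul_le_mul_left h6 (by positivity)
  linarith

/-- vectors supported on levels below `n` -/
def En (J : Type*) (n : ℕ) (y : EE J) : Prop := ∀ k, n ≤ k → y k = 0

theorem En_mono {m n : ℕ} (h : m ≤ n) (y : EE J) (hy : En J m y) : En J n y :=
  fun k hk => hy k (h.trans hk)

theorem En_sub {n : ℕ} {y z : EE J} (hy : En J n y) (hz : En J n z) : En J n (y - z) := by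
  intro k hk
  rw [Finsupp.sub_apply, hy k hk, hz k hk, sub_zero]

theorem En_add {n : ℕ} {y z : EE J} (hy : En J n y) (hz : En J n z) : En J n (y + z) := by
  intro k hk
  rw [Finsupp.add_apply, hy k hk, hz k hk, add_zero]

theorem En_single (n : ℕ) (t : J →₀ ℝ) : En J (n + 1) (Finsupp.single n t) := by
  intro k hk
  rw [Finsupp.single_apply, if_neg (by omega)]

theorem exists_En (y : EE J) : ∃ n, En J n y := by
  classical
  refine ⟨y.support.sup id + 1, fun k hk => ?_⟩
  by_contra hne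
  have h1 : k ∈ y.support := Finsupp.mem_support_iff.2 hne
  have h2 : k ≤ y.support.sup id := Finset.le_sup (f := id) h1
  omega

/-- Pythagoras for adding one level -/
theorem N_add_single (n : ℕ) (z : EE J) (t : J →₀ ℝ) (hz : z n = 0) :
    (N C (z + Finsupp.single n t)) ^ 2 = (N C z) ^ 2 + (Q (C n) t) ^ 2 := by
  classical
  have hsup : (z + Finsupp.single n t).support ⊆ insert n z.support := by
    refine Finsupp.support_add.trans ?_
    apply Finset.union_subset (Finset.subset_insert _ _)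
    exact Finsupp.support_single_subset.trans (by simp)
  have hn : n ∉ z.support := Finsupp.notMem_support_iff.2 hz
  rw [N_sq _ _ hsup, Finset.sum_insert hn, N_sq z z.support (Finset.Subset.refl _), add_comm]
  congr 1
  · refine Finset.sum_congr rfl fun k hk => ?_
    have : n ≠ k := fun h => hn (h ▸ hk)
    rw [Finsupp.add_apply, Finsupp.single_apply, if_neg this, add_zero]
  · rw [Finsupp.add_apply, hz, zero_add, Finsupp.single_eq_same]

theorem N_single (n : ℕ) (t : J →₀ ℝ) : N C (Finsupp.single n t) = Q (C n) t := by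
  have h := N_sq (C := C) (Finsupp.single n t) {n} Finsupp.support_single_subset
  rw [Finset.sum_singleton, Finsupp.single_eq_same] at h
  exact (sq_eq_sq₀ (N_nonneg _) (Q_nonneg _)).1 h

/-- the norm on low levels only depends on the low matrices -/
theorem N_congr (C C' : ℕ → J → J → ℝ) (n : ℕ) (h : ∀ m < n, C m = C' m) (y : EE J)
    (hy : En J n y) : N C y = N C' y := by
  unfold N
  congr 1
  refine Finset.sum_congr rfl fun k hk => ?_
  have hkn : k < n := by
    by_contra hcon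
    exact (Finsupp.mem_support_iff.1 hk) (hy k (not_lt.1 hcon))
  rw [h k hkn]

open Classical in
/-- the matrix of the next level -/
def newC (a : J ≃ EE J) (C : ℕ → J → J → ℝ) (n : ℕ) : J → J → ℝ := fun i j =>
  if (En J n (a i) ∧ En J n (a j)) ∧ i ≠ j then 64 / (N C (a i - a j)) ^ 4 else 0

/-- recursive construction of the matrices -/
def Cs (a : J ≃ EE J) : ℕ → (ℕ → J → J → ℝ)
  | 0 => fun _ _ _ => 0
  | n + 1 => Function.update (Cs a n) n (newC a (Cs a n) n)

/-- the matrices -/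
def CC (a : J ≃ EE J) (n : ℕ) : J → J → ℝ := Cs a (n + 1) n

theorem Cs_stable (a : J ≃ EE J) (n m : ℕ) (h : m < n) : Cs a n m = CC a m := by
  induction n with
  | zero => omega
  | succ n ih =>
    rcases Nat.lt_succ_iff_lt_or_eq.1 h with h1 | h1
    · rw [Cs, Function.update_of_ne (by omega)]
      exact ih h1
    · subst h1; rfl

open Classical in
theorem CC_eq (a : J ≃ EE J) (n : ℕ) (i j : J) :
    CC a n i j = if (En J n (a i) ∧ En J n (a j)) ∧ i ≠ j then 64 / (N (CC a) (a i - a j)) ^ 4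
      else 0 := by
  unfold CC
  rw [Cs, Function.update_self]
  unfold newC
  split_ifs with h
  · rw [N_congr (Cs a n) (CC a) n (fun m hm => Cs_stable a n m hm) _ (En_sub h.1.1 h.1.2)]
    rfl
  · rfl

theorem CC_adm (a : J ≃ EE J) (n : ℕ) : AdmC (CC a n) where
  nonneg i j := by
    rw [CC_eq]
    split_ifs
    · have := N_nonneg (C := CC a) (a i - a j)
      positivity
    · exact le_rfl
  diag i := by
    rw [CC_eq, if_neg]
    simp

end

end Pool.Agent.Lib.Helper35.Tiling
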