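import Mathlib
import Pool.Agent.Lib.Helper35.Tiling.Norm
set_option autoImplicit false
open Filter Topology

namespace Pool.Agent.Lib.Helper35.Tiling

noncomputable section

variable {J : Type*}

/-- `x` is covered by the family `P` of balls (pairs centre, radius) -/
def Cov (a : J ≃ EE J) (P : Set (EE J × ℝ)) (x : EE J) : Prop :=
  ∃ p ∈ P, N (CC a) (x - p.1) ≤ p.2

/-- admissible radius for a ball touching `x` -/
def GoodRad (a : J ≃ EE J) (P : Set (EE J × ℝ)) (x : EE J) (δ : ℝ) : Prop :=
  0 < δ ∧ δ ≤ 1 ∧ ∀ p ∈ P, p.2 + δ ≤ N (CC a) (x - p.1)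

open Classical in
/-- the chosen radius -/
def rad (a : J ≃ EE J) (P : Set (EE J × ℝ)) (x : EE J) : ℝ :=
  if h : ∃ δ, GoodRad a P x δ then h.choose else 1

/-- the new ball attached to `x` -/
def nb (a : J ≃ EE J) (P : Set (EE J × ℝ)) (n : ℕ) (x : EE J) : EE J × ℝ :=
  (x + Finsupp.single n (Finsupp.single (a.symm x) (rad a P x)), rad a P x)

/-- the packing at stage `n` -/
def Pn (a : J ≃ EE J) : ℕ → Set (EE J × ℝ)
  | 0 => ∅
  | n + 1 => Pn a n ∪ {p | ∃ x, En J n x ∧ ¬ Cov a (Pn a n) x ∧ p = nb a (Pn a n) n x}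

/-- the inductive hypotheses -/
structure Inv (a : J ≃ EE J) (n : ℕ) : Prop where
  basic : ∀ p ∈ Pn a n, En J n p.1 ∧ 0 < p.2 ∧ p.2 ≤ 1
  pack : ∀ p ∈ Pn a n, ∀ q ∈ Pn a n, p ≠ q → p.2 + q.2 ≤ N (CC a) (p.1 - q.1)
  gap : ∀ y, En J n y → ¬ Cov a (Pn a n) y → ∃ ε > 0, ∀ p ∈ Pn a n, p.2 + ε ≤ N (CC a) (y - p.1)

theorem rad_good (a : J ≃ EE J) (n : ℕ) (h : Inv a n) (x : EE J) (hx : En J n x)
    (hc : ¬ Cov a (Pn a n) x) : GoodRad a (Pn a n) x (rad a (Pn a n) x) := by
  have hex : ∃ δ, GoodRad a (Pn a n) x δ := by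
    obtain ⟨ε, hε, hb⟩ := h.gap x hx hc
    refine ⟨min ε 1, by positivity, min_le_right _ _, fun p hp => ?_⟩
    have := hb p hp
    have := min_le_left ε 1
    linarith
  unfold rad
  rw [dif_pos hex]
  exact hex.choose_spec

theorem cover_step (a : J ≃ EE J) (n : ℕ) (h : Inv a n) (y : EE J) (hy : En J n y) :
    Cov a (Pn a (n + 1)) y := by
  classical
  by_cases hc : Cov a (Pn a n) y
  · obtain ⟨p, hp, hpy⟩ := hc
    exact ⟨p, Or.inl hp, hpy⟩
  · refine ⟨nb a (Pn a n) n y, Or.inr ⟨y, hy, hc, rfl⟩, ?_⟩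
    have hg := rad_good a n h y hy hc
    set r := rad a (Pn a n) y with hr
    have h1 : y - (nb a (Pn a n) n y).1 = -Finsupp.single n (Finsupp.single (a.symm y) r) := by
      unfold nb
      exact sub_add_cancel_left y _
    rw [h1, N_neg]
    have h4 : N (CC a) (Finsupp.single n (Finsupp.single (a.symm y) r)) = r := by
      rw [N_single, Q_single (CC_adm a n), abs_of_pos hg.1]
    rw [h4]
    exact le_rfl

theorem sq_le_helper {u v : ℝ} (hu : 0 ≤ u) (h : v ^ 2 ≤ u ^ 2) : v ≤ u :=
  (abs_le_of_sq_le_sq' h hu).2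

theorem inv_step (a : J ≃ EE J) (n : ℕ) (h : Inv a n) : Inv a (n + 1) := by
  classical
  have hadm := CC_adm a
  refine ⟨?_, ?_, ?_⟩
  · -- basic facts
    rintro p (hp | ⟨x, hx, hc, rfl⟩)
    · obtain ⟨h1, h2, h3⟩ := h.basic p hp
      exact ⟨En_mono (Nat.le_succ n) _ h1, h2, h3⟩
    · have hg := rad_good a n h x hx hc
      refine ⟨?_, hg.1, hg.2.1⟩
      exact En_add (En_mono (Nat.le_succ n) _ hx) (En_single n _)
  · -- packing
    -- new against old
    have hno : ∀ x, En J n x → ¬ Cov a (Pn a n) x → ∀ q ∈ Pn a n,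
        (nb a (Pn a n) n x).2 + q.2 ≤ N (CC a) ((nb a (Pn a n) n x).1 - q.1) := by
      intro x hx hc q hq
      have hg := rad_good a n h x hx hc
      set r := rad a (Pn a n) x with hr
      have h1 : (nb a (Pn a n) n x).1 - q.1
          = (x - q.1) + Finsupp.single n (Finsupp.single (a.symm x) r) := by
        unfold nb; simp only; abel
      have hz : (x - q.1) n = 0 := by
        have := En_sub hx (h.basic q hq).1
        exact this n le_rfl
      have h2 := N_add_single (C := CC a) n (x - q.1) (Finsupp.single (a.symm x) r) hz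
      rw [h1]
      have h3 := hg.2.2 q hq
      have h4 : N (CC a) (x - q.1) ≤ N (CC a) ((x - q.1) + Finsupp.single n (Finsupp.single (a.symm x) r)) := by
        apply sq_le_helper (N_nonneg _)
        rw [h2]
        nlinarith [sq_nonneg (Q (CC a n) (Finsupp.single (a.symm x) r))]
      have h5 : (nb a (Pn a n) n x).2 = r := rfl
      rw [h5]
      linarith
    rintro p (hp | ⟨x, hx, hc, rfl⟩) q (hq | ⟨x', hx', hc', rfl⟩) hne
    · exact h.pack p hp q hq hne
    · rw [add_comm, N_sub_comm]
      exact hno x' hx' hc' p hp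
    · exact hno x hx hc q hq
    · -- new against new
      have hxx : x ≠ x' := by
        intro hcon
        exact hne (by rw [hcon])
      have hg := rad_good a n h x hx hc
      have hg' := rad_good a n h x' hx' hc'
      have e5 : (nb a (Pn a n) n x).2 = rad a (Pn a n) x := rfl
      have e6 : (nb a (Pn a n) n x').2 = rad a (Pn a n) x' := rfl
      rw [e5, e6]
      have h1 : (nb a (Pn a n) n x).1 - (nb a (Pn a n) n x').1
          = (x - x') + Finsupp.single n (Finsupp.single (a.symm x) (rad a (Pn a n) x)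
            + Finsupp.single (a.symm x') (-(rad a (Pn a n) x'))) := by
        unfold nb
        simp only
        rw [Finsupp.single_add, Finsupp.single_neg, Finsupp.single_neg]
        abel
      set r := rad a (Pn a n) x with hr
      set r' := rad a (Pn a n) x' with hr'
      have hz : (x - x') n = 0 := (En_sub hx hx') n le_rfl
      set t : J →₀ ℝ := Finsupp.single (a.symm x) r + Finsupp.single (a.symm x') (-r') with ht
      have h2 := N_add_single (C := CC a) n (x - x') t hz
      rw [h1]
      set D := N (CC a) (x - x') with hD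
      have hD0 : 0 < D := N_pos hadm _ (sub_ne_zero.2 hxx)
      set κ : ℝ := D ^ 2 / 8 with hκ
      have hκ0 : 0 < κ := by positivity
      have hij : a.symm x ≠ a.symm x' := fun hcon => hxx (a.symm.injective hcon)
      have hCk : 1 / κ ^ 2 ≤ CC a n (a.symm x) (a.symm x') := by
        rw [CC_eq, if_pos]
        · rw [Equiv.apply_symm_apply, Equiv.apply_symm_apply, ← hD, hκ]
          apply le_of_eq
          field_simp
          norm_num
        · rw [Equiv.apply_symm_apply, Equiv.apply_symm_apply]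
          exact ⟨⟨hx, hx'⟩, hij⟩
      have h3 := l1_le_Q (hadm n) (a.symm x) (a.symm x') hij r (-r') κ hκ0 hCk
      rw [← ht, abs_neg, abs_of_pos hg.1, abs_of_pos hg'.1] at h3
      have hr1 := hg.2.1
      have hr1' := hg'.2.1
      have hr0 := hg.1
      have hr0' := hg'.1
      have hQ0 := Q_nonneg (C := CC a n) t
      apply sq_le_helper (N_nonneg _)
      rw [h2]
      -- R ≤ (1+κ) Q, R ≤ 2, κ = D²/8
      set R := r + r' with hR
      set q := Q (CC a n) t with hq
      have hR0 : 0 < R := by linarith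
      have hR2 : R ≤ 2 := by linarith
      have h6 : R ^ 2 ≤ (1 + κ) ^ 2 * q ^ 2 := by
        rw [← mul_pow]; gcongr
      have h7 : R ^ 2 * (1 - 2 * κ) ≤ q ^ 2 := by
        have h8 : R ^ 2 * (1 - 2 * κ) * (1 + κ) ^ 2 ≤ R ^ 2 := by
          have : (1 - 2 * κ) * (1 + κ) ^ 2 ≤ 1 := by nlinarith [mul_pos hκ0 hκ0, mul_pos (mul_pos hκ0 hκ0) hκ0]
          nlinarith [sq_nonneg R]
        have h9 : R ^ 2 * (1 - 2 * κ) * (1 + κ) ^ 2 ≤ q ^ 2 * (1 + κ) ^ 2 := by linarith
        exact le_of_mul_le_mul_right h9 (by positivity)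
      have h10 : R ^ 2 * (2 * κ) ≤ D ^ 2 := by
        have : R ^ 2 ≤ 4 := by nlinarith
        rw [hκ]; nlinarith [sq_nonneg D]
      linarith
  · -- gap
    intro y hy hc
    set t : J →₀ ℝ := y n with ht
    set z : EE J := y - Finsupp.single n t with hz
    have hzE : En J n z := by
      intro k hk
      rw [hz, Finsupp.sub_apply]
      rcases hk.eq_or_lt with h1 | h1
      · rw [← h1, Finsupp.single_eq_same, ht, sub_self]
      · rw [hy k (by omega), Finsupp.single_apply, if_neg (by omega), sub_zero]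
    have hyz : y = z + Finsupp.single n t := by rw [hz]; abel
    have ht0 : t ≠ 0 := by
      intro hcon
      apply hc
      have hyz' : y = z := by
        have : z + Finsupp.single n (0 : J →₀ ℝ) = z := by
          rw [Finsupp.single_zero]
          exact add_zero z
        rw [hcon, this] at hyz
        exact hyz
      rw [hyz']
      exact cover_step a n h z hzE
    have huncov : ∀ p ∈ Pn a (n + 1), p.2 < N (CC a) (y - p.1) := by
      intro p hp
      by_contra hcon
      exact hc ⟨p, hp, not_lt.1 hcon⟩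
    -- T = ℓ₂ norm squared of t
    set T : ℝ := ∑ j ∈ t.support, (t j) ^ 2 with hT
    have hT0 : 0 < T := by
      obtain ⟨j, hj⟩ := Finsupp.support_nonempty_iff.2 ht0
      apply Finset.sum_pos' (fun y _ => sq_nonneg _)
      refine ⟨j, hj, ?_⟩
      have : t j ≠ 0 := Finsupp.mem_support_iff.1 hj
      positivity
    set ε₂ : ℝ := √(T + 1) - 1 with hε₂
    have hε₂0 : 0 < ε₂ := by
      rw [hε₂, sub_pos, Real.lt_sqrt (by norm_num)]
      linarith
    have hε₂s : ε₂ ^ 2 + 2 * ε₂ = T := by
      have : (ε₂ + 1) ^ 2 = T + 1 := by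
        rw [hε₂, sub_add_cancel, Real.sq_sqrt (by linarith)]
      linarith
    have hquant : ∀ r u : ℝ, 0 < r → r ≤ 1 → 0 ≤ u → r ^ 2 + T ≤ u ^ 2 → r + ε₂ ≤ u := by
      intro r u hr0 hr1 hu hru
      apply sq_le_helper hu
      nlinarith
    -- finitely many special new balls
    let pj : J → EE J × ℝ := fun j => nb a (Pn a n) n (a j)
    let f : J → ℝ := fun j => if pj j ∈ Pn a (n + 1) then N (CC a) (y - (pj j).1) - (pj j).2 else 1
    have hf0 : ∀ j, 0 < f j := by
      intro j
      simp only [f]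
      split_ifs with h1
      · have := huncov _ h1; linarith
      · norm_num
    have htne : t.support.Nonempty := Finsupp.support_nonempty_iff.2 ht0
    set ε₁ : ℝ := t.support.inf' htne f with hε₁
    have hε₁0 : 0 < ε₁ := by
      rw [hε₁, Finset.lt_inf'_iff]
      intro j _; exact hf0 j
    -- the special old ball
    obtain ⟨ε₃, hε₃0, hε₃⟩ : ∃ ε₃ > 0, ∀ p ∈ Pn a n, N (CC a) (z - p.1) < p.2 →
        p.2 + ε₃ ≤ N (CC a) (y - p.1) := by
      by_cases hex : ∃ p ∈ Pn a n, N (CC a) (z - p.1) < p.2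
      · obtain ⟨p, hp, hpz⟩ := hex
        refine ⟨N (CC a) (y - p.1) - p.2, sub_pos.2 (huncov p (Or.inl hp)), ?_⟩
        intro q hq hqz
        have hpq : p = q := by
          by_contra hne
          have h1 := h.pack p hp q hq hne
          have h2 : N (CC a) (p.1 - q.1) ≤ N (CC a) (z - p.1) + N (CC a) (z - q.1) := by
            have h3 : p.1 - q.1 = (p.1 - z) + (z - q.1) := by abel
            rw [h3, N_sub_comm z p.1]
            exact N_add_le hadm _ _
          linarith
        rw [← hpq]; linarith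
      · refine ⟨1, one_pos, fun p hp hpz => absurd ⟨p, hp, hpz⟩ hex⟩
    refine ⟨min ε₁ (min ε₂ ε₃), by positivity, ?_⟩
    rintro p (hp | ⟨x, hx, hcx, hpx⟩)
    · -- old balls
      have hm2 : min ε₁ (min ε₂ ε₃) ≤ ε₂ := (min_le_right _ _).trans (min_le_left _ _)
      have hm3 : min ε₁ (min ε₂ ε₃) ≤ ε₃ := (min_le_right _ _).trans (min_le_right _ _)
      by_cases hpz : N (CC a) (z - p.1) < p.2
      · have := hε₃ p hp hpz; linarith
      · rw [not_lt] at hpz
        obtain ⟨hpE, hp0, hp1⟩ := h.basic p hp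
        have e1 : y - p.1 = (z - p.1) + Finsupp.single n t := by rw [hyz]; abel
        have e2 := N_add_single (C := CC a) n (z - p.1) t ((En_sub hzE hpE) n le_rfl)
        have e3 := l2_le_Q (hadm n) t.support t
        have e4 : p.2 ^ 2 + T ≤ (N (CC a) (y - p.1)) ^ 2 := by
          rw [e1, e2]
          have : p.2 ^ 2 ≤ (N (CC a) (z - p.1)) ^ 2 := by gcongr
          linarith
        have := hquant p.2 _ hp0 hp1 (N_nonneg _) e4
        linarith
    · -- new balls
      have hm1 : min ε₁ (min ε₂ ε₃) ≤ ε₁ := min_le_left _ _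
      have hm2 : min ε₁ (min ε₂ ε₃) ≤ ε₂ := (min_le_right _ _).trans (min_le_left _ _)
      by_cases hj : a.symm x ∈ t.support
      · have e1 : ε₁ ≤ f (a.symm x) := Finset.inf'_le _ hj
        have e2 : pj (a.symm x) = p := by
          simp only [pj]; rw [Equiv.apply_symm_apply, ← hpx]
        have e3 : p ∈ Pn a (n + 1) := Or.inr ⟨x, hx, hcx, hpx⟩
        simp only [f] at e1
        rw [e2, if_pos e3] at e1
        linarith
      · have hg := rad_good a n h x hx hcx
        have hp2 : p.2 = rad a (Pn a n) x := by rw [hpx]; rfl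
        set r := rad a (Pn a n) x with hr
        have e1 : y - p.1 = (z - x) + Finsupp.single n (t - Finsupp.single (a.symm x) r) := by
          rw [hyz, hpx]
          unfold nb
          simp only
          rw [Finsupp.single_sub]
          abel
        have e2 := N_add_single (C := CC a) n (z - x) (t - Finsupp.single (a.symm x) r)
          ((En_sub hzE hx) n le_rfl)
        have e3 := l2_le_Q (hadm n) (insert (a.symm x) t.support) (t - Finsupp.single (a.symm x) r)
        rw [Finset.sum_insert hj] at e3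
        have e4 : ((t - Finsupp.single (a.symm x) r) (a.symm x)) ^ 2 = r ^ 2 := by
          rw [Finsupp.sub_apply, Finsupp.single_eq_same, Finsupp.notMem_support_iff.1 hj]
          ring
        have e5 : ∑ j ∈ t.support, ((t - Finsupp.single (a.symm x) r) j) ^ 2 = T := by
          refine Finset.sum_congr rfl fun j hj' => ?_
          have : a.symm x ≠ j := fun hcon => hj (hcon ▸ hj')
          rw [Finsupp.sub_apply, Finsupp.single_apply, if_neg this, sub_zero]
        rw [e4, e5] at e3
        have e6 : r ^ 2 + T ≤ (N (CC a) (y - p.1)) ^ 2 := by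
          rw [e1, e2]
          nlinarith [sq_nonneg (N (CC a) (z - x))]
        have := hquant r _ hg.1 hg.2.1 (N_nonneg _) e6
        rw [hp2]
        linarith

theorem inv_all (a : J ≃ EE J) (n : ℕ) : Inv a n := by
  induction n with
  | zero =>
    refine ⟨?_, ?_, ?_⟩
    · intro p hp; exact absurd hp (Set.notMem_empty p)
    · intro p hp; exact absurd hp (Set.notMem_empty p)
    · intro y _ _
      exact ⟨1, one_pos, fun p hp => absurd hp (Set.notMem_empty p)⟩
  | succ n ih => exact inv_step a n ih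

theorem Pn_mono (a : J ≃ EE J) : Monotone (Pn a) :=
  monotone_nat_of_le_succ fun _ => Set.subset_union_left

/-- all tiles -/
def TT (a : J ≃ EE J) : Set (EE J × ℝ) := ⋃ n, Pn a n

theorem TT_pos (a : J ≃ EE J) : ∀ p ∈ TT a, 0 < p.2 := by
  intro p hp
  obtain ⟨n, hn⟩ := Set.mem_iUnion.1 hp
  exact ((inv_all a n).basic p hn).2.1

theorem TT_cover (a : J ≃ EE J) (y : EE J) : ∃ p ∈ TT a, N (CC a) (y - p.1) ≤ p.2 := by
  obtain ⟨n, hn⟩ := exists_En y
  obtain ⟨p, hp, hpy⟩ := cover_step a n (inv_all a n) y hn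
  exact ⟨p, Set.mem_iUnion.2 ⟨n + 1, hp⟩, hpy⟩

theorem TT_pack (a : J ≃ EE J) : ∀ p ∈ TT a, ∀ q ∈ TT a, p ≠ q →
    p.2 + q.2 ≤ N (CC a) (p.1 - q.1) := by
  intro p hp q hq hne
  obtain ⟨n, hn⟩ := Set.mem_iUnion.1 hp
  obtain ⟨m, hm⟩ := Set.mem_iUnion.1 hq
  have h1 := Pn_mono a (le_max_left n m) hn
  have h2 := Pn_mono a (le_max_right n m) hm
  exact (inv_all a (max n m)).pack p h1 q h2 hne

end

end Pool.Agent.Lib.Helper35.Tiling
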